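import Mathlib

set_option autoImplicit false

open Set Filter Topology TopologicalSpace

namespace Pool.Agent.Results.MP_e70507_gt.CompactTightness

universe u v w

/-- `Cp X` is the set of continuous real functions on `X` with the topology of pointwise
convergence (the subspace topology inherited from the product `X → ℝ`). -/
abbrev Cp (X : Type u) [TopologicalSpace X] : Type u := {f : X → ℝ // Continuous f}

/-- Countable tightness. -/
def CountablyTight (Z : Type u) [TopologicalSpace Z] : Prop :=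
  ∀ (A : Set Z) (z : Z), z ∈ closure A → ∃ B : Set Z, B ⊆ A ∧ B.Countable ∧ z ∈ closure B

section ranges

variable {X : Type u} [TopologicalSpace X] {M : Type v} [PseudoMetricSpace M]

/-- `[0,1]`-valued `1`-Lipschitz functions on `M`. -/
def Lip (M : Type v) [PseudoMetricSpace M] : Set (M → ℝ) :=
  {φ | (∀ m, φ m ∈ Icc (0:ℝ) 1) ∧ ∀ m m', |φ m - φ m'| ≤ dist m m'}

lemma isCompact_lip : IsCompact (Lip M) := by
  have h1 : IsCompact (Set.pi univ (fun _ : M => Icc (0:ℝ) 1)) :=
    isCompact_univ_pi (fun _ => isCompact_Icc)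
  refine h1.of_isClosed_subset ?_ ?_
  · have : Lip M = (⋂ m, {φ : M → ℝ | φ m ∈ Icc (0:ℝ) 1}) ∩
        ⋂ m, ⋂ m', {φ : M → ℝ | |φ m - φ m'| ≤ dist m m'} := by
      ext φ
      simp [Lip]
    rw [this]
    refine IsClosed.inter ?_ ?_
    · exact isClosed_iInter fun m => isClosed_Icc.preimage (continuous_apply m)
    · refine isClosed_iInter fun m => isClosed_iInter fun m' => ?_
      exact isClosed_le (((continuous_apply m).sub (continuous_apply m')).abs) continuous_const
  · intro φ hφ m _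
    exact hφ.1 m

lemma lip_continuous {φ : M → ℝ} (hφ : φ ∈ Lip M) : Continuous φ := by
  have : LipschitzWith 1 φ := by
    refine LipschitzWith.of_dist_le_mul fun a b => ?_
    simpa [Real.dist_eq] using hφ.2 a b
  exact this.continuous

/-- If all compact subspaces of `Cp X` are countably tight, then every continuous image of `X`
in a metric space is separable. -/
lemma isSeparable_range (hX : ∀ S : Set (Cp X), IsCompact S → CountablyTight S)
    (g : X → M) (hg : Continuous g) : IsSeparable (range g) := by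
  classical
  rcases isEmpty_or_nonempty X with hE | ⟨⟨x0⟩⟩
  · rw [range_eq_empty]
    exact ⟨∅, countable_empty, by simp⟩
  have : CompactSpace (Lip M) := isCompact_iff_compactSpace.mp isCompact_lip
  let Θ : Lip M → Cp X := fun φ => ⟨fun x => φ.1 (g x), (lip_continuous φ.2).comp hg⟩
  have hΘ : Continuous Θ := by
    refine Continuous.subtype_mk ?_ _
    exact continuous_pi fun x => (continuous_apply (g x)).comp continuous_subtype_val
  have hS : IsCompact (range Θ) := isCompact_range hΘ
  have hT := hX _ hS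
  -- distance functions
  have hmem : ∀ s : Finset X,
      (fun m => min 1 (Metric.infDist m (g '' (insert x0 (s : Set X))))) ∈ Lip M := by
    intro s
    refine ⟨fun m => ⟨le_min zero_le_one Metric.infDist_nonneg, min_le_left _ _⟩, ?_⟩
    intro m m'
    have h1 : |min 1 (Metric.infDist m (g '' (insert x0 (s : Set X)))) -
        min 1 (Metric.infDist m' (g '' (insert x0 (s : Set X))))| ≤
        max |(1:ℝ) - 1| |Metric.infDist m (g '' (insert x0 (s : Set X))) -
          Metric.infDist m' (g '' (insert x0 (s : Set X)))| := abs_min_sub_min_le_max _ _ _ _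
    refine h1.trans ?_
    have h2 := (Metric.lipschitz_infDist_pt (g '' (insert x0 (s : Set X)))).dist_le_mul m m'
    rw [Real.dist_eq] at h2
    simp only [sub_self, abs_zero, NNReal.coe_one, one_mul] at h2 ⊢
    exact max_le dist_nonneg h2
  let Φ : Finset X → range Θ := fun s => ⟨Θ ⟨_, hmem s⟩, ⟨_, rfl⟩⟩
  have h0mem : (fun _ => 0 : M → ℝ) ∈ Lip M := by
    refine ⟨fun m => by simp, fun m m' => by simp⟩
  let z : range Θ := ⟨Θ ⟨_, h0mem⟩, ⟨_, rfl⟩⟩
  have hz : z ∈ closure (range Φ) := by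
    refine mem_closure_of_tendsto (b := atTop) (f := Φ) ?_ (Eventually.of_forall fun s => ⟨s, rfl⟩)
    rw [tendsto_subtype_rng, tendsto_subtype_rng, tendsto_pi_nhds]
    intro x
    refine tendsto_const_nhds.congr' ?_
    filter_upwards [eventually_ge_atTop ({x} : Finset X)] with s hs
    have hx : x ∈ s := by simpa using hs
    have : Metric.infDist (g x) (g '' (insert x0 (s : Set X))) = 0 :=
      Metric.infDist_zero_of_mem ⟨x, Or.inr hx, rfl⟩
    simp [z, Φ, Θ, this]
  obtain ⟨B, hBA, hBc, hzB⟩ := hT _ _ hz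
  have hBA' : ∀ b ∈ B, ∃ s, Φ s = b := fun b hb => hBA hb
  choose! σ hσ using hBA'
  refine ⟨⋃ b ∈ B, g '' (insert x0 (σ b : Set X)), ?_, ?_⟩
  · refine hBc.biUnion fun b _ => ?_
    exact ((Finset.countable_toSet _).insert _).image _
  · rintro _ ⟨x, rfl⟩
    rw [Metric.mem_closure_iff]
    intro ε hε
    have hopen : IsOpen {c : range Θ | |c.1.1 x| < min ε 1} := by
      refine isOpen_lt ?_ continuous_const
      exact ((continuous_apply x).comp
        (continuous_subtype_val.comp continuous_subtype_val)).abs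
    have hzin : z ∈ {c : range Θ | |c.1.1 x| < min ε 1} := by
      simp [z, Θ, hε]
    obtain ⟨b, hb1, hb2⟩ := mem_closure_iff.mp hzB _ hopen hzin
    have hb3 := hσ b hb2
    have hb4 : |min 1 (Metric.infDist (g x) (g '' (insert x0 (σ b : Set X))))| < min ε 1 := by
      have : |b.1.1 x| < min ε 1 := hb1
      rw [← hb3] at this
      exact this
    rw [abs_of_nonneg (le_min zero_le_one Metric.infDist_nonneg)] at hb4
    have hb5 : Metric.infDist (g x) (g '' (insert x0 (σ b : Set X))) < ε := by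
      by_contra hcon
      push Not at hcon
      have h6 : min ε 1 ≤ min 1 (Metric.infDist (g x) (g '' (insert x0 (σ b : Set X)))) :=
        le_min (min_le_right _ _) ((min_le_left _ _).trans hcon)
      linarith
    have hne : (g '' (insert x0 (σ b : Set X))).Nonempty := ⟨g x0, x0, Or.inl rfl, rfl⟩
    obtain ⟨y, hy1, hy2⟩ := (Metric.infDist_lt_iff hne).mp hb5
    exact ⟨y, mem_biUnion hb2 hy1, hy2⟩

end ranges

section good

variable {X : Type u} [TopologicalSpace X] {K : Type v} [TopologicalSpace K]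

/-- `D` is dense in `K` for the topology generated by the functions `g (x, ·)`, `g ∈ S`. -/
def Good (D : Set K) (S : Set (Cp (X × K))) : Prop :=
  ∀ k : K, ∃ U : Filter K, U.NeBot ∧ D ∈ U ∧
    ∀ g ∈ S, ∀ x : X, Tendsto (fun d => g.1 (x, d)) U (𝓝 (g.1 (x, k)))

lemma Good.mono {D D' : Set K} {S : Set (Cp (X × K))} (h : Good D S) (hD : D ⊆ D') :
    Good D' S := by
  intro k
  obtain ⟨U, h1, h2, h3⟩ := h k
  exact ⟨U, h1, mem_of_superset h2 hD, h3⟩

lemma good_iUnion {D : ℕ → Set K} {S : ℕ → Set (Cp (X × K))} (hS : Monotone S)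
    (h : ∀ n, Good (D (n + 1)) (S n)) : Good (⋃ n, D n) (⋃ n, S n) := by
  intro k
  choose U hU1 hU2 hU3 using fun n => h n k
  refine ⟨Filter.bind atTop U, ?_, ?_, ?_⟩
  · rw [neBot_iff]
    intro hbot
    have h1 : (∅ : Set K) ∈ Filter.bind atTop U := by rw [hbot]; exact mem_bot
    have h2 : ∀ᶠ n in atTop, (∅ : Set K) ∈ U n := h1
    obtain ⟨n, hn⟩ := h2.exists
    exact (hU1 n).ne (empty_mem_iff_bot.mp hn)
  · have h2 : ∀ᶠ n in atTop, (⋃ n, D n) ∈ U n :=
      Eventually.of_forall fun n => mem_of_superset (hU2 n) (subset_iUnion D (n + 1))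
    exact h2
  · intro g hg x
    obtain ⟨m, hm⟩ := mem_iUnion.mp hg
    intro V hV
    have h2 : ∀ᶠ n in atTop, ((fun d => g.1 (x, d)) ⁻¹' V) ∈ U n := by
      filter_upwards [eventually_ge_atTop m] with n hn
      exact hU3 n g (hS hn hm) x hV
    exact h2

variable [CompactSpace K]

lemma exists_good (hX : ∀ S : Set (Cp X), IsCompact S → CountablyTight S)
    (S : Set (Cp (X × K))) (hS : S.Countable) :
    ∃ D : Set K, D.Countable ∧ Good D S := by
  classical
  -- curried functions
  let c : Cp (X × K) → C(X, C(K, ℝ)) := fun g => ContinuousMap.curry ⟨g.1, g.2⟩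
  have hsep : ∀ g : Cp (X × K), ∃ T : Set X, T.Countable ∧ range (c g) ⊆ closure (c g '' T) := by
    intro g
    have h1 : IsSeparable (range (c g)) := isSeparable_range hX (c g) (c g).continuous
    obtain ⟨t, ht1, ht2, ht3⟩ := h1.exists_countable_dense_subset
    obtain ⟨T, hT1, hT2⟩ : ∃ T : Set X, T.Countable ∧ c g '' T = t := by
      refine ⟨rangeSplitting (c g) '' {y | y.1 ∈ t}, ?_, ?_⟩
      · refine Set.Countable.image ?_ _
        exact ht2.preimage Subtype.val_injective
      · ext y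
        constructor
        · rintro ⟨_, ⟨y', hy', rfl⟩, rfl⟩
          have h5 := apply_rangeSplitting (c g) y'
          rw [h5]
          exact hy'
        · intro hy
          exact ⟨_, ⟨⟨y, ht1 hy⟩, hy, rfl⟩, apply_rangeSplitting (c g) ⟨y, ht1 hy⟩⟩
    exact ⟨T, hT1, by rw [hT2]; exact ht3⟩
  choose T hT1 hT2 using hsep
  let ι := {p : Cp (X × K) × X // p.1 ∈ S ∧ p.2 ∈ T p.1}
  have : Countable ι := by
    have h1 : {p : Cp (X × K) × X | p.1 ∈ S ∧ p.2 ∈ T p.1} = ⋃ g ∈ S, (Prod.mk g) '' (T g) := by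
      ext p
      simp only [mem_ofPred_eq, mem_iUnion, mem_image, exists_prop]
      constructor
      · rintro ⟨h1, h2⟩
        exact ⟨p.1, h1, p.2, h2, rfl⟩
      · rintro ⟨g, h1, x, h2, rfl⟩
        exact ⟨h1, h2⟩
    have h2 : {p : Cp (X × K) × X | p.1 ∈ S ∧ p.2 ∈ T p.1}.Countable := by
      rw [h1]
      exact hS.biUnion fun g _ => (hT1 g).image _
    exact h2.to_subtype
  let q : K → (ι → ℝ) := fun k p => p.1.1.1 (p.1.2, k)
  obtain ⟨t, ht1, ht2⟩ := TopologicalSpace.exists_countable_dense (range q)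
  refine ⟨rangeSplitting q '' t, ht1.image _, ?_⟩
  have hDq : ∀ k, q k ∈ closure (q '' (rangeSplitting q '' t)) := by
    intro k
    have h1 : (⟨q k, k, rfl⟩ : range q) ∈ closure t := ht2 _
    have h2 : q '' (rangeSplitting q '' t) = Subtype.val '' t := by
      rw [image_image]
      refine image_congr fun y _ => ?_
      exact apply_rangeSplitting q y
    rw [h2]
    exact closure_subtype.mp h1
  intro k
  have hne : (comap q (𝓝 (q k)) ⊓ 𝓟 (rangeSplitting q '' t)).NeBot := by
    rw [inf_principal_neBot_iff]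
    intro U hU
    obtain ⟨V, hV, hVU⟩ := mem_comap.mp hU
    obtain ⟨_, hy1, ⟨d, hd, rfl⟩⟩ := mem_closure_iff_nhds.mp (hDq k) V hV
    exact ⟨d, hVU hy1, hd⟩
  refine ⟨comap q (𝓝 (q k)) ⊓ 𝓟 (rangeSplitting q '' t), hne,
    mem_inf_of_right (mem_principal_self _), ?_⟩
  intro g hg x
  have hbase : ∀ x' ∈ T g, Tendsto (fun d => g.1 (x', d))
      (comap q (𝓝 (q k)) ⊓ 𝓟 (rangeSplitting q '' t)) (𝓝 (g.1 (x', k))) := by
    intro x' hx'
    have h1 : Tendsto q (comap q (𝓝 (q k)) ⊓ 𝓟 (rangeSplitting q '' t)) (𝓝 (q k)) :=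
      tendsto_comap.mono_left inf_le_left
    have h2 := tendsto_pi_nhds.mp h1 ⟨(g, x'), hg, hx'⟩
    exact h2
  rw [Metric.tendsto_nhds]
  intro ε hε
  have h3 : c g x ∈ closure (c g '' T g) := hT2 g ⟨x, rfl⟩
  obtain ⟨_, ⟨x', hx', rfl⟩, hdist⟩ := Metric.mem_closure_iff.mp h3 (ε / 3) (by positivity)
  have hpt : ∀ d : K, dist (g.1 (x, d)) (g.1 (x', d)) < ε / 3 := by
    intro d
    refine lt_of_le_of_lt ?_ hdist
    exact ContinuousMap.dist_apply_le_dist (f := c g x) (g := c g x') d
  have h4 := Metric.tendsto_nhds.mp (hbase x' hx') (ε / 3) (by positivity)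
  filter_upwards [h4] with d hd
  calc dist (g.1 (x, d)) (g.1 (x, k))
      ≤ dist (g.1 (x, d)) (g.1 (x', d)) + dist (g.1 (x', d)) (g.1 (x', k))
        + dist (g.1 (x', k)) (g.1 (x, k)) := dist_triangle4 _ _ _ _
    _ < ε / 3 + ε / 3 + ε / 3 := by
        have := hpt d
        have h5 := hpt k
        rw [dist_comm] at h5
        linarith
    _ = ε := by ring

/-- Rigidity: a function in the closure of `S` which agrees with `f ∈ S` on `X × D`,
with `D` good for `S`, is equal to `f`. -/
lemma good_rigid {D : Set K} {S : Set (Cp (X × K))} (hD : Good D S) {f h : Cp (X × K)}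
    (hf : f ∈ S) (hh : h ∈ closure S) (heq : ∀ x : X, ∀ d ∈ D, h.1 (x, d) = f.1 (x, d)) :
    h = f := by
  apply Subtype.ext
  funext ⟨x, k⟩
  obtain ⟨U, hU1, hU2, hU3⟩ := hD k
  obtain ⟨k', hk'⟩ := exists_clusterPt_of_compactSpace U
  have hne : (𝓝 k' ⊓ U).NeBot := hk'
  have hpair : ∀ g ∈ S, g.1 (x, k) = g.1 (x, k') := by
    intro g hg
    have h1 : Tendsto (fun d => g.1 (x, d)) (𝓝 k' ⊓ U) (𝓝 (g.1 (x, k))) :=
      (hU3 g hg x).mono_left inf_le_right
    have h2 : Tendsto (fun d => g.1 (x, d)) (𝓝 k' ⊓ U) (𝓝 (g.1 (x, k'))) :=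
      ((g.2.comp (Continuous.prodMk_right x)).tendsto k').mono_left inf_le_left
    exact tendsto_nhds_unique h1 h2
  have hclosed : IsClosed {c : Cp (X × K) | c.1 (x, k) = c.1 (x, k')} :=
    isClosed_eq ((continuous_apply _).comp continuous_subtype_val)
      ((continuous_apply _).comp continuous_subtype_val)
  have hhk : h.1 (x, k) = h.1 (x, k') := closure_minimal hpair hclosed hh
  have hE : IsClosed {e : K | h.1 (x, e) = f.1 (x, e)} :=
    isClosed_eq (h.2.comp (Continuous.prodMk_right x)) (f.2.comp (Continuous.prodMk_right x))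
  have hk'D : k' ∈ closure D := by
    rw [mem_closure_iff_clusterPt]
    exact hk'.mono (le_principal_iff.mpr hU2)
  have h5 : h.1 (x, k') = f.1 (x, k') := closure_minimal (fun d hd => heq x d hd) hE hk'D
  rw [hhk, h5, ← hpair f hf]

/-- The comparison map `h ↦ ∑ 2⁻ⁱ min 1 |h (x, d i) - f (x, d i)|`. -/
noncomputable def cmp (f : Cp (X × K)) (d : ℕ → K) (h : Cp (X × K)) : Cp X :=
  ⟨fun x => ∑' i : ℕ, (1 / 2 : ℝ) ^ i * min 1 |h.1 (x, d i) - f.1 (x, d i)|, by
    refine continuous_tsum (u := fun i => (1 / 2 : ℝ) ^ i) ?_ summable_geometric_two ?_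
    · intro i
      have h1 : Continuous fun x : X => h.1 (x, d i) := h.2.comp (Continuous.prodMk_left (d i))
      have h2 : Continuous fun x : X => f.1 (x, d i) := f.2.comp (Continuous.prodMk_left (d i))
      exact continuous_const.mul (continuous_const.min (h1.sub h2).abs)
    · intro i x
      rw [Real.norm_eq_abs, abs_of_nonneg (by positivity)]
      exact mul_le_of_le_one_right (by positivity) (min_le_left _ _)⟩

omit [CompactSpace K] in
lemma cmp_bound (f h : Cp (X × K)) (d : ℕ → K) (x : X) (i : ℕ) :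
    ‖(1 / 2 : ℝ) ^ i * min 1 |h.1 (x, d i) - f.1 (x, d i)|‖ ≤ (1 / 2 : ℝ) ^ i := by
  rw [Real.norm_eq_abs, abs_of_nonneg (by positivity)]
  exact mul_le_of_le_one_right (by positivity) (min_le_left _ _)

omit [CompactSpace K] in
lemma continuous_cmp (f : Cp (X × K)) (d : ℕ → K) : Continuous (cmp f d) := by
  refine Continuous.subtype_mk ?_ _
  refine continuous_pi fun x => ?_
  refine continuous_tsum (u := fun i => (1 / 2 : ℝ) ^ i) ?_ summable_geometric_two ?_
  · intro i
    have h1 : Continuous fun h : Cp (X × K) => h.1 (x, d i) :=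
      (continuous_apply _).comp continuous_subtype_val
    exact continuous_const.mul (continuous_const.min (h1.sub continuous_const).abs)
  · intro i h
    exact cmp_bound f h d x i

omit [CompactSpace K] in
lemma cmp_self (f : Cp (X × K)) (d : ℕ → K) (x : X) : (cmp f d f).1 x = 0 := by
  simp [cmp]

omit [CompactSpace K] in
lemma eq_of_cmp_eq {f h : Cp (X × K)} {d : ℕ → K} (hc : cmp f d h = cmp f d f) (x : X) (i : ℕ) :
    h.1 (x, d i) = f.1 (x, d i) := by
  have h1 : (cmp f d h).1 x = 0 := by rw [hc, cmp_self]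
  have hs : Summable fun i : ℕ => (1 / 2 : ℝ) ^ i * min 1 |h.1 (x, d i) - f.1 (x, d i)| :=
    Summable.of_norm_bounded summable_geometric_two (cmp_bound f h d x)
  have h2 : ∀ i : ℕ, 0 ≤ (1 / 2 : ℝ) ^ i * min 1 |h.1 (x, d i) - f.1 (x, d i)| :=
    fun i => by positivity
  have h3 : (∑' i : ℕ, (1 / 2 : ℝ) ^ i * min 1 |h.1 (x, d i) - f.1 (x, d i)|) = 0 := h1
  have h4 : (1 / 2 : ℝ) ^ i * min 1 |h.1 (x, d i) - f.1 (x, d i)| ≤ 0 := by
    rw [← h3]
    exact hs.le_tsum i (fun j _ => h2 j)
  have h5 : min 1 |h.1 (x, d i) - f.1 (x, d i)| ≤ 0 := by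
    have h6 : (0 : ℝ) < (1 / 2 : ℝ) ^ i := by positivity
    by_contra hcon
    push Not at hcon
    have := mul_pos h6 hcon
    linarith
  rcases min_le_iff.mp h5 with h6 | h6
  · linarith
  · have h7 := abs_nonpos_iff.mp h6
    linarith

/-- Countable tightness seen through a continuous map into `Cp X`. -/
lemma exists_countable_image {Z : Type w} [TopologicalSpace Z]
    (hX : ∀ S : Set (Cp X), IsCompact S → CountablyTight S) {Φ : Z → Cp X} (hΦ : Continuous Φ)
    {F : Set Z} (hF : IsCompact F) {A : Set Z} (hAF : A ⊆ F) {f : Z} (hfF : f ∈ F)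
    (hf : f ∈ closure A) : ∃ B ⊆ A, B.Countable ∧ Φ f ∈ closure (Φ '' B) := by
  classical
  have hS : IsCompact (Φ '' F) := hF.image hΦ
  have hT := hX _ hS
  let A' : Set (Φ '' F) := {c | c.1 ∈ Φ '' A}
  let z : (Φ '' F) := ⟨Φ f, f, hfF, rfl⟩
  have hval : Subtype.val '' A' = Φ '' A := by
    ext c
    constructor
    · rintro ⟨c', hc', rfl⟩
      exact hc'
    · rintro ⟨a, ha, rfl⟩
      exact ⟨⟨Φ a, a, hAF ha, rfl⟩, ⟨a, ha, rfl⟩, rfl⟩
  have hz : z ∈ closure A' := by
    rw [closure_subtype, hval]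
    exact image_closure_subset_closure_image hΦ ⟨f, hf, rfl⟩
  obtain ⟨B', hB'A, hB'c, hzB'⟩ := hT A' z hz
  have : Nonempty Z := ⟨f⟩
  have hch : ∀ b ∈ B', ∃ a ∈ A, Φ a = b.1 := fun b hb => hB'A hb
  choose! σ hσ1 hσ2 using hch
  refine ⟨σ '' B', ?_, hB'c.image _, ?_⟩
  · rintro _ ⟨b, hb, rfl⟩
    exact hσ1 b hb
  · have h1 := closure_subtype.mp hzB'
    have h2 : Φ '' (σ '' B') = Subtype.val '' B' := by
      rw [image_image]
      exact image_congr fun b hb => hσ2 b hb
    rw [h2]
    exact h1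

omit [CompactSpace K] in
lemma exists_step (hX : ∀ S : Set (Cp X), IsCompact S → CountablyTight S)
    {F : Set (Cp (X × K))} (hF : IsCompact F) {A : Set (Cp (X × K))} (hAF : A ⊆ F)
    {f : Cp (X × K)} (hf : f ∈ closure A) {D : Set K} (hD : D.Countable) (hDne : D.Nonempty) :
    ∃ B ⊆ A, B.Countable ∧ ∃ h ∈ closure B, ∀ x : X, ∀ d ∈ D, h.1 (x, d) = f.1 (x, d) := by
  obtain ⟨d, hd⟩ := hD.exists_eq_range hDne
  have hclosed : IsClosed F := hF.isClosed
  have hfF : f ∈ F := closure_minimal hAF hclosed hf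
  obtain ⟨B, hBA, hBc, hB⟩ :=
    exists_countable_image hX (continuous_cmp f d) hF hAF hfF hf
  refine ⟨B, hBA, hBc, ?_⟩
  have hBF : closure B ⊆ F := closure_minimal (hBA.trans hAF) hclosed
  have hcomp : IsCompact (closure B) := hF.of_isClosed_subset isClosed_closure hBF
  have himg : IsClosed (cmp f d '' closure B) := (hcomp.image (continuous_cmp f d)).isClosed
  have hmem : cmp f d f ∈ cmp f d '' closure B :=
    closure_minimal (image_mono subset_closure) himg hB
  obtain ⟨h, hh, heq⟩ := hmem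
  refine ⟨h, hh, ?_⟩
  intro x e he
  rw [hd] at he
  obtain ⟨i, rfl⟩ := he
  exact eq_of_cmp_eq heq x i

/-- The ambient form of the main theorem. -/
lemma main_tight (hX : ∀ S : Set (Cp X), IsCompact S → CountablyTight S)
    {F : Set (Cp (X × K))} (hF : IsCompact F) {A : Set (Cp (X × K))} (hAF : A ⊆ F)
    {f : Cp (X × K)} (hf : f ∈ closure A) :
    ∃ B ⊆ A, B.Countable ∧ f ∈ closure B := by
  classical
  rcases isEmpty_or_nonempty K with hK | ⟨⟨k0⟩⟩
  · have hne : A.Nonempty := closure_nonempty_iff.mp ⟨f, hf⟩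
    obtain ⟨a, ha⟩ := hne
    have haf : a = f := by
      apply Subtype.ext
      funext p
      exact (hK.false p.2).elim
    refine ⟨{a}, singleton_subset_iff.mpr ha, countable_singleton a, ?_⟩
    rw [haf]
    exact subset_closure rfl
  -- states of the closing-off argument
  let St := {p : Set (Cp (X × K)) × Set K // p.1 ⊆ A ∧ p.1.Countable ∧ p.2.Countable}
  have hstep : ∀ p : St, ∃ p' : St, p.1.1 ⊆ p'.1.1 ∧ p.1.2 ⊆ p'.1.2 ∧
      Good p'.1.2 (insert f p.1.1) ∧
      ∃ h ∈ closure p'.1.1, ∀ x : X, ∀ d ∈ p'.1.2, h.1 (x, d) = f.1 (x, d) := by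
    rintro ⟨⟨B, D⟩, hBA, hBc, hDc⟩
    obtain ⟨D1, hD1c, hD1⟩ := exists_good (X := X) (K := K) hX (insert f B) (hBc.insert f)
    have hD'c : (insert k0 (D ∪ D1)).Countable := (hDc.union hD1c).insert k0
    obtain ⟨B1, hB1A, hB1c, h, hh1, hh2⟩ :=
      exists_step hX hF hAF hf hD'c (insert_nonempty _ _)
    refine ⟨⟨(B ∪ B1, insert k0 (D ∪ D1)), union_subset hBA hB1A, hBc.union hB1c, hD'c⟩,
      subset_union_left, ?_, ?_, h, ?_, hh2⟩
    · exact subset_union_left.trans (subset_insert _ _)
    · exact hD1.mono (subset_union_right.trans (subset_insert _ _))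
    · exact closure_mono subset_union_right hh1
  choose next hn1 hn2 hn3 hn4 using hstep
  let s : ℕ → St := fun n => Nat.rec (⟨(∅, ∅), empty_subset _, countable_empty, countable_empty⟩ : St)
    (fun _ p => next p) n
  have hs : ∀ n, s (n + 1) = next (s n) := fun n => rfl
  have hmonoB : Monotone fun n => (s n).1.1 := monotone_nat_of_le_succ fun n => by
    rw [hs]; exact hn1 (s n)
  have hmonoD : Monotone fun n => (s n).1.2 := monotone_nat_of_le_succ fun n => by
    rw [hs]; exact hn2 (s n)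
  refine ⟨⋃ n, (s n).1.1, iUnion_subset fun n => (s n).2.1,
    countable_iUnion fun n => (s n).2.2.1, ?_⟩
  set B := ⋃ n, (s n).1.1 with hB
  have hBF : closure B ⊆ F :=
    closure_minimal ((iUnion_subset fun n => (s n).2.1).trans hAF) hF.isClosed
  have hcomp : IsCompact (closure B) := hF.of_isClosed_subset isClosed_closure hBF
  let H : ℕ → Set (Cp (X × K)) := fun n =>
    closure B ∩ {h | ∀ x : X, ∀ d ∈ (s (n + 1)).1.2, h.1 (x, d) = f.1 (x, d)}
  have hHclosed : ∀ n, IsClosed (H n) := by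
    intro n
    refine isClosed_closure.inter ?_
    simp only [ofPred_forall]
    refine isClosed_iInter fun x => isClosed_iInter fun d => isClosed_iInter fun _ => ?_
    exact isClosed_eq ((continuous_apply _).comp continuous_subtype_val) continuous_const
  have hHne : (⋂ n, H n).Nonempty := by
    refine IsCompact.nonempty_iInter_of_sequence_nonempty_isCompact_isClosed H ?_ ?_ ?_ hHclosed
    · intro n h hh
      exact ⟨hh.1, fun x d hd => hh.2 x d (hmonoD (Nat.le_succ (n + 1)) hd)⟩
    · intro n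
      obtain ⟨h, hh1, hh2⟩ := hn4 (s n)
      refine ⟨h, ?_, ?_⟩
      · exact closure_mono (subset_iUnion (fun n => (s n).1.1) (n + 1)) hh1
      · intro x d hd
        exact hh2 x d hd
    · exact hcomp.of_isClosed_subset (hHclosed 0) inter_subset_left
  obtain ⟨h, hh⟩ := hHne
  have hh' := mem_iInter.mp hh
  have hgood : Good (⋃ n, (s n).1.2) (⋃ n, insert f (s n).1.1) := by
    refine good_iUnion ?_ ?_
    · intro m n hmn
      exact insert_subset_insert (hmonoB hmn)
    · intro n
      exact hn3 (s n)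
  have hfin : h = f := by
    refine good_rigid hgood (mem_iUnion.mpr ⟨0, mem_insert _ _⟩) ?_ ?_
    · refine closure_mono ?_ (hh' 0).1
      exact iUnion_mono fun n => subset_insert _ _
    · intro x d hd
      obtain ⟨n, hn⟩ := mem_iUnion.mp hd
      exact (hh' n).2 x d (hmonoD (Nat.le_succ n) hn)
  rw [← hfin]
  exact (hh' 0).1

end good

/-- If every compact subspace of `C_p(X)` has countable tightness and `K` is compact, then every
compact subspace of `C_p(X × K)` has countable tightness. -/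
theorem result (X : Type u) [TopologicalSpace X] [T35Space X]
    (hX : ∀ S : Set (Cp X), IsCompact S → CountablyTight S)
    (K : Type v) [TopologicalSpace K] [CompactSpace K] [T2Space K] :
    ∀ S : Set (Cp (X × K)), IsCompact S → CountablyTight S := by
  intro S hS A z hz
  have hz' : z.1 ∈ closure (Subtype.val '' A) := closure_subtype.mp hz
  have hAS : Subtype.val '' A ⊆ S := by
    rintro _ ⟨a, _, rfl⟩
    exact a.2
  obtain ⟨B, hBA, hBc, hB⟩ := main_tight hX hS hAS hz'
  refine ⟨{a | a ∈ A ∧ a.1 ∈ B}, fun a ha => ha.1, ?_, ?_⟩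
  · exact (hBc.preimage Subtype.val_injective).mono fun a ha => ha.2
  · rw [closure_subtype]
    refine closure_mono ?_ hB
    intro b hb
    obtain ⟨a, ha, rfl⟩ := hBA hb
    exact ⟨a, ⟨ha, hb⟩, rfl⟩

end Pool.Agent.Results.MP_e70507_gt.CompactTightness
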